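import Pool.Agent.helper3.T6.SpecH

/-!
# T6 (MP_16912e_nt), block H, row HRAT: a reduced basis when the shortest vector is about `Z √l`
-/

set_option autoImplicit false

namespace Pool.Agent.T6

open Finset NumberField Pool.Agent.helper3.FT Pool.Agent.helper47.RA Pool.Agent.T5
open scoped nonZeroDivisors

theorem HRAT_pos {K : Type} [Field K] [NumberField K] (Q : QF K) {e : 𝓞 K} (he : e ≠ 0) : 0 < Q.v₁ e := by
  have h1 := Q.hnorm e
  have h2 : Ideal.absNorm (Ideal.span {e}) ≠ 0 := by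
    rw [Ne, Ideal.absNorm_eq_zero_iff, Ideal.span_singleton_eq_bot]
    exact he
  rcases (Q.v₁_nonneg e).lt_or_eq with h | h
  · exact h
  · rw [← h, zero_mul] at h1
    exact absurd (by exact_mod_cast h1) h2

theorem HRAT : HRAT_stmt := by
  intro K _ _ Q hD a l ha hlow hup
  have ha2 : a ^ 2 ≠ ⊥ := by
    intro h
    exact ha (pow_eq_zero_iff (two_ne_zero) |>.1 h)
  obtain ⟨e₁, e₂, hRB⟩ := Pool.Agent.helper26.T5.AllL.aLBB K Q (a ^ 2) hD ha2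
  have he : 0 < Q.v₁ e₁ := HRAT_pos Q hRB.ne
  refine ⟨e₁, e₂, hRB, hlow e₁ hRB.m1 hRB.ne, ?_⟩
  obtain ⟨m, hm, hm0, hml⟩ := hup
  obtain ⟨x, y, hxy⟩ := hRB.sp m hm
  have hmn := Q.v₁_nonneg m
  have hkey : Q.v₁ e₁ ≤ 2 * Q.v₁ m := by
    by_cases hy : y = 0
    · have hx : x ≠ 0 := by
        intro hx
        apply hm0
        rw [hxy, hx, hy]
        simp
      have h1 : Q.v₁ m = |(x : ℝ)| * Q.v₁ e₁ := by
        have e : m = (x : 𝓞 K) * e₁ := by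
          rw [hxy, hy]
          simp
        rw [e, Q.v₁_mul, Q.v₁_int]
      have h2 : (1 : ℝ) ≤ |(x : ℝ)| := by
        have h3 : (1 : ℤ) ≤ |x| := Int.one_le_abs hx
        exact_mod_cast h3
      nlinarith
    · have hY : |(Q.Y (Q.cj e₁ * m) : ℝ)| = |(y : ℝ)| * (Ideal.absNorm (a ^ 2) : ℝ) := by
        have e : Q.cj e₁ * m = (x : 𝓞 K) * (Q.cj e₁ * e₁) + (y : 𝓞 K) * (Q.cj e₁ * e₂) := by
          rw [hxy]
          ring
        have h0 : Q.Y (Q.cj e₁ * e₁) = 0 := by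
          have h1 : Q.cj (Q.cj e₁ * e₁) = Q.cj e₁ * e₁ := by
            rw [map_mul, QF.cj_cj, mul_comm]
          have h2 := Q.Y_cj (Q.cj e₁ * e₁)
          rw [h1] at h2
          omega
        have h3 : Q.Y (Q.cj e₁ * m) = y * Q.Y (Q.cj e₁ * e₂) := by
          rw [e, Q.Y_add, Q.Y_int_mul, Q.Y_int_mul, h0, mul_zero, zero_add]
        have h4 : |Q.Y (Q.cj e₁ * m)| = |y| * (Ideal.absNorm (a ^ 2) : ℤ) := by
          rw [h3, abs_mul, hRB.det]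
        exact_mod_cast h4
      have h5 := Q.Y_bound (Q.cj e₁ * m)
      rw [hY, ← Q.himag hD, Q.v₁_mul, Q.v₁_cj, ← Q.himag hD] at h5
      have h6 : (1 : ℝ) ≤ |(y : ℝ)| := by
        have h3 : (1 : ℤ) ≤ |y| := Int.one_le_abs hy
        exact_mod_cast h3
      have h7 := hRB.red
      have h8 : (0 : ℝ) ≤ √|(Q.D : ℝ)| * (Ideal.absNorm (a ^ 2) : ℝ) := by positivity
      have h9 : Q.v₁ e₁ * Q.v₁ e₂ ≤ Q.v₁ e₁ * (2 * Q.v₁ m) := by
        calc Q.v₁ e₁ * Q.v₁ e₂ ≤ 1 * (√|(Q.D : ℝ)| * (Ideal.absNorm (a ^ 2) : ℝ)) := by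
              rw [one_mul]
              exact h7
          _ ≤ |(y : ℝ)| * (√|(Q.D : ℝ)| * (Ideal.absNorm (a ^ 2) : ℝ)) := mul_le_mul_of_nonneg_right h6 h8
          _ ≤ Q.v₁ e₁ * (2 * Q.v₁ m) := by linarith
      exact hRB.le.trans (le_of_mul_le_mul_left h9 he)
  have h10 : Q.v₁ e₁ ^ 2 ≤ (2 * Q.v₁ m) ^ 2 := pow_le_pow_left₀ he.le hkey 2
  have h11 : (2 * Q.v₁ m) ^ 2 = 4 * Q.v₁ m ^ 2 := by ring
  linarith

end Pool.Agent.T6
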