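import Pool.Agent.helper82.T6.SpecL

/-!
# T6 (MP_16912e_nt), row Z3: the determinant
-/

set_option autoImplicit false

namespace Pool.Agent.T6

open Finset Pool.Agent.helper3.FT

/-- the basic divisibility: `h` divides `E ^ 2 * D` times every coordinate -/
theorem Z3_div (h A A' B X n k r : ℤ) (hc : IsCoprime h (5 * r ^ 3)) (hc5 : IsCoprime h 5)
    (hN1 : F1 A A' B n k = 0) (hN2 : F2 A' B X n k = 0) (h1 : h ∣ F1 A A' B r 1)
    (h2 : h ∣ F2 A' B X r 1) :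
    h ∣ (k ^ 2 * r ^ 2 + 3 * n * k * r + n ^ 2) ^ 2 * (k * r - n) * A ∧
    h ∣ (k ^ 2 * r ^ 2 + 3 * n * k * r + n ^ 2) ^ 2 * (k * r - n) * A' ∧
    h ∣ (k ^ 2 * r ^ 2 + 3 * n * k * r + n ^ 2) ^ 2 * (k * r - n) * B ∧
    h ∣ (k ^ 2 * r ^ 2 + 3 * n * k * r + n ^ 2) ^ 2 * (k * r - n) * X := by
  have e1 : h ∣ (k ^ 2 * r ^ 2 + 3 * n * k * r + n ^ 2) ^ 2 * (k * r - n) * A' := by
    have e : (k ^ 2 * r ^ 2 + 3 * n * k * r + n ^ 2) ^ 2 * (k * r - n) * A' =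
        (2 * k * (n + r * k) * n ^ 3) * F1 A A' B r 1 +
          ((n ^ 2 + n * (r * k) + (r * k) ^ 2) * k ^ 3) * F2 A' B X r 1 := by
      unfold F1 F2 at *
      linear_combination (-(2 * k * (n + r * k) * r ^ 3)) * hN1 -
        (n ^ 2 + n * (r * k) + (r * k) ^ 2) * hN2
    rw [e]
    exact dvd_add (Dvd.dvd.mul_left h1 _) (Dvd.dvd.mul_left h2 _)
  have e2 : h ∣ (k ^ 2 * r ^ 2 + 3 * n * k * r + n ^ 2) ^ 2 * (k * r - n) * B := by
    have e : (k ^ 2 * r ^ 2 + 3 * n * k * r + n ^ 2) ^ 2 * (k * r - n) * B =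
        (2 * n * r * (n + r * k) * k ^ 3) * F2 A' B X r 1 -
          ((n ^ 2 + n * (r * k) + (r * k) ^ 2) * n ^ 3) * F1 A A' B r 1 := by
      unfold F1 F2 at *
      linear_combination ((n ^ 2 + n * (r * k) + (r * k) ^ 2) * r ^ 3) * hN1 -
        (2 * n * r * (n + r * k)) * hN2
    rw [e]
    exact dvd_sub (Dvd.dvd.mul_left h2 _) (Dvd.dvd.mul_left h1 _)
  refine ⟨hc.dvd_of_dvd_mul_left ?_, e1, e2, hc5.dvd_of_dvd_mul_left ?_⟩
  · have e : 5 * r ^ 3 * ((k ^ 2 * r ^ 2 + 3 * n * k * r + n ^ 2) ^ 2 * (k * r - n) * A) =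
        ((k ^ 2 * r ^ 2 + 3 * n * k * r + n ^ 2) ^ 2 * (k * r - n)) * F1 A A' B r 1 +
          (2 * r) * ((k ^ 2 * r ^ 2 + 3 * n * k * r + n ^ 2) ^ 2 * (k * r - n) * A') -
          (k ^ 2 * r ^ 2 + 3 * n * k * r + n ^ 2) ^ 2 * (k * r - n) * B := by
      unfold F1
      ring
    rw [e]
    exact dvd_sub (dvd_add (Dvd.dvd.mul_left h1 _) (Dvd.dvd.mul_left e1 _)) e2
  · have e : 5 * ((k ^ 2 * r ^ 2 + 3 * n * k * r + n ^ 2) ^ 2 * (k * r - n) * X) =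
        r ^ 3 * ((k ^ 2 * r ^ 2 + 3 * n * k * r + n ^ 2) ^ 2 * (k * r - n) * A') +
          (2 * r ^ 2) * ((k ^ 2 * r ^ 2 + 3 * n * k * r + n ^ 2) ^ 2 * (k * r - n) * B) -
          ((k ^ 2 * r ^ 2 + 3 * n * k * r + n ^ 2) ^ 2 * (k * r - n)) * F2 A' B X r 1 := by
      unfold F2
      ring
    rw [e]
    exact dvd_sub (dvd_add (Dvd.dvd.mul_left e1 _) (Dvd.dvd.mul_left e2 _)) (Dvd.dvd.mul_left h2 _)

theorem Z3 : Z3_stmt := by
  intro p a r n k v hp hp5 ha hr hnk hn hk hW hPm hG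
  obtain ⟨A, A', B, X⟩ := v
  obtain ⟨hN1, hN2⟩ := hW
  obtain ⟨h1, h2⟩ := hG
  have hN1' : F1 A A' B n k = 0 := hN1
  have hN2' : F2 A' B X n k = 0 := hN2
  have h1' : (p : ℤ) ^ a ∣ F1 A A' B r 1 := by
    have h : ((p ^ a : ℕ) : ℤ) ∣ F1 A A' B r 1 := h1
    rwa [Nat.cast_pow] at h
  have h2' : (p : ℤ) ^ a ∣ F2 A' B X r 1 := by
    have h : ((p ^ a : ℕ) : ℤ) ∣ F2 A' B X r 1 := h2
    rwa [Nat.cast_pow] at h
  have hpp : Prime (p : ℤ) := Nat.prime_iff_prime_int.1 hp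
  have hp5' : ¬ (p : ℤ) ∣ 5 := by
    intro h
    have h3 : p ∣ 5 := by exact_mod_cast h
    have h4 := Nat.le_of_dvd (by norm_num) h3
    omega
  have hpr : ¬ (p : ℤ) ∣ (r : ℤ) := by
    intro h
    have h3 : p ∣ r := by exact_mod_cast h
    have h4 : p ∣ 1 := by
      rw [← hr]
      exact Nat.dvd_gcd h3 dvd_rfl
    exact hp.one_lt.ne' (Nat.dvd_one.1 h4)
  have hcop : ∀ z : ℤ, ¬ (p : ℤ) ∣ z → IsCoprime ((p : ℤ) ^ a) z := fun z hz =>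
    IsCoprime.pow_left ((Prime.coprime_iff_not_dvd hpp).2 hz)
  have hc5 := hcop 5 hp5'
  have hc : IsCoprime ((p : ℤ) ^ a) (5 * (r : ℤ) ^ 3) := hc5.mul_right ((hcop r hpr).pow_right)
  obtain ⟨dA, dA', dB, dX⟩ := Z3_div ((p : ℤ) ^ a) A A' B X n k r hc hc5 hN1' hN2' h1' h2'
  have hmain : (p : ℤ) ^ a ∣ (k ^ 2 * (r : ℤ) ^ 2 + 3 * n * k * r + n ^ 2) ^ 2 * (k * r - n) := by
    have h3 := hPm p hp dvd_rfl
    have h4 : ¬ ((p : ℤ) ∣ A ∧ (p : ℤ) ∣ A' ∧ (p : ℤ) ∣ B ∧ (p : ℤ) ∣ X) := h3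
    by_cases hA : (p : ℤ) ∣ A
    · by_cases hA' : (p : ℤ) ∣ A'
      · by_cases hB : (p : ℤ) ∣ B
        · have hX : ¬ (p : ℤ) ∣ X := fun hX => h4 ⟨hA, hA', hB, hX⟩
          exact (hcop X hX).dvd_of_dvd_mul_right dX
        · exact (hcop B hB).dvd_of_dvd_mul_right dB
      · exact (hcop A' hA').dvd_of_dvd_mul_right dA'
    · exact (hcop A hA).dvd_of_dvd_mul_right dA
  refine ⟨fun hD => ?_, fun hD => (hcop _ hD).dvd_of_dvd_mul_right hmain⟩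
  have hE : ¬ (p : ℤ) ∣ (k ^ 2 * (r : ℤ) ^ 2 + 3 * n * k * r + n ^ 2) ^ 2 := by
    intro h5
    have h6 : (p : ℤ) ∣ k ^ 2 * (r : ℤ) ^ 2 + 3 * n * k * r + n ^ 2 := hpp.dvd_of_dvd_pow h5
    have h7 : (p : ℤ) ∣ 5 * (n * (k * r)) := by
      have e : 5 * (n * (k * (r : ℤ))) =
          (k ^ 2 * (r : ℤ) ^ 2 + 3 * n * k * r + n ^ 2) - (k * r - n) * (k * r - n) := by ring
      rw [e]
      exact dvd_sub h6 (Dvd.dvd.mul_left hD _)
    have h8 : (p : ℤ) ∣ n ∧ (p : ℤ) ∣ k := by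
      rcases hpp.dvd_or_dvd h7 with h | h
      · exact absurd h hp5'
      · rcases hpp.dvd_or_dvd h with h | h
        · have h9 : (p : ℤ) ∣ k * r := by
            have e : k * (r : ℤ) = (k * r - n) + n := by ring
            rw [e]
            exact dvd_add hD h
          rcases hpp.dvd_or_dvd h9 with h' | h'
          · exact ⟨h, h'⟩
          · exact absurd h' hpr
        · rcases hpp.dvd_or_dvd h with h' | h'
          · refine ⟨?_, h'⟩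
            have e : n = k * r - (k * r - n) := by ring
            rw [e]
            exact dvd_sub (Dvd.dvd.mul_right h' _) hD
          · exact absurd h' hpr
    exact hpp.not_isUnit (hnk.isUnit_of_dvd' h8.1 h8.2)
  exact (hcop _ hE).dvd_of_dvd_mul_left hmain

end Pool.Agent.T6
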